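import Mathlib

/-! Gauss's multiplication formula for the Gamma function on the positive reals, up to the value of
the constant. -/

open Finset Real

namespace Pool.Agent.TH17.LR

/-- the auxiliary function of the Bohr–Mollerup argument -/
noncomputable def gf (n : ℕ) (x : ℝ) : ℝ :=
  (n : ℝ) ^ (x - 1) * (∏ k ∈ range n, Gamma ((x + k) / n)) / ∏ k ∈ range n, Gamma ((1 + k) / n)

theorem gf_den_pos (n : ℕ) {x : ℝ} (hx : 0 < x) : 0 < ∏ k ∈ range n, Gamma ((x + k) / n) := by
  refine prod_pos fun k hk => Gamma_pos_of_pos ?_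
  have hn : 0 < n := lt_of_le_of_lt (Nat.zero_le k) (mem_range.1 hk)
  positivity

theorem gf_pos {n : ℕ} (hn : 0 < n) {x : ℝ} (hx : 0 < x) : 0 < gf n x := by
  unfold gf
  have h1 := gf_den_pos n hx
  have h2 := gf_den_pos n (x := 1) one_pos
  have h3 : (0 : ℝ) < (n : ℝ) ^ (x - 1) := rpow_pos_of_pos (by exact_mod_cast hn) _
  positivity

theorem gf_one {n : ℕ} : gf n 1 = 1 := by
  unfold gf
  rw [sub_self, rpow_zero, one_mul]
  exact div_self (gf_den_pos n (x := 1) one_pos).ne'

theorem gf_add_one {n : ℕ} (hn : 0 < n) {x : ℝ} (hx : 0 < x) : gf n (x + 1) = x * gf n x := by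
  have hn' : (0 : ℝ) < n := by exact_mod_cast hn
  unfold gf
  have h1 : ∏ k ∈ range n, Gamma ((x + 1 + k) / n) = (x / n) * ∏ k ∈ range n, Gamma ((x + k) / n) := by
    have e1 : ∏ k ∈ range n, Gamma ((x + 1 + k) / n) = ∏ k ∈ range n, Gamma ((x + ((k + 1 : ℕ) : ℝ)) / n) := by
      refine prod_congr rfl fun k _ => ?_
      push_cast
      ring_nf
    have e2 := prod_range_succ' (fun k : ℕ => Gamma ((x + (k : ℝ)) / n)) n
    have e3 := prod_range_succ (fun k : ℕ => Gamma ((x + (k : ℝ)) / n)) n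
    have e4 : Gamma ((x + (n : ℝ)) / n) = (x / n) * Gamma (x / n) := by
      rw [add_div, div_self hn'.ne', Gamma_add_one (by positivity)]
    have e5 : Gamma ((x + ((0 : ℕ) : ℝ)) / n) = Gamma (x / n) := by simp
    have e6 : (0 : ℝ) < Gamma (x / n) := Gamma_pos_of_pos (by positivity)
    rw [e1]
    have e7 : (∏ k ∈ range n, Gamma ((x + ((k + 1 : ℕ) : ℝ)) / n)) * Gamma (x / n) =
        ((x / n) * ∏ k ∈ range n, Gamma ((x + k) / n)) * Gamma (x / n) := by
      rw [← e5, ← e2, e3, e4, e5]
      ring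
    exact mul_right_cancel₀ e6.ne' e7
  rw [h1, show x + 1 - 1 = x - 1 + 1 by ring, rpow_add hn', rpow_one]
  field_simp

theorem gf_convex {n : ℕ} (hn : 0 < n) : ConvexOn ℝ (Set.Ioi 0) (log ∘ gf n) := by
  have hn' : (0 : ℝ) < n := by exact_mod_cast hn
  have hS : ∀ m : ℕ, ConvexOn ℝ (Set.Ioi (0 : ℝ)) (fun x => ∑ k ∈ range m, log (Gamma ((x + k) / n))) := by
    intro m
    induction m with
    | zero => simpa using convexOn_const (0 : ℝ) (convex_Ioi (0 : ℝ))
    | succ m ih =>
      have hc : ConvexOn ℝ (Set.Ioi (0 : ℝ)) (fun x => log (Gamma ((x + m) / n))) := by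
        refine ⟨convex_Ioi _, ?_⟩
        intro x hx y hy a b ha hb hab
        have h := convexOn_log_Gamma.2 (x := (x + m) / n) (y := (y + m) / n)
          (by have : (0 : ℝ) < x := hx
              show (0 : ℝ) < _
              positivity)
          (by have : (0 : ℝ) < y := hy
              show (0 : ℝ) < _
              positivity) ha hb hab
        simp only [smul_eq_mul, Function.comp_apply] at h ⊢
        have e : (a * x + b * y + m) / n = a * ((x + m) / n) + b * ((y + m) / n) := by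
          have : (m : ℝ) = (a + b) * m := by rw [hab, one_mul]
          rw [this]
          rw [hab]
          field_simp
          linear_combination (m : ℝ) * (-hab)
        rw [e]
        exact h
      have := ih.add hc
      refine this.congr ?_
      intro x _
      simp [sum_range_succ]
  have h1 : ConvexOn ℝ (Set.Ioi (0 : ℝ)) (fun x => (∑ k ∈ range n, log (Gamma ((x + k) / n))) +
      ((x - 1) * log n - log (∏ k ∈ range n, Gamma ((1 + k) / n)))) := by
    refine (hS n).add ⟨convex_Ioi _, ?_⟩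
    intro x _ y _ a b _ _ hab
    simp only [smul_eq_mul]
    apply le_of_eq
    linear_combination (log n + log (∏ k ∈ range n, Gamma ((1 + k) / n))) * hab
  refine h1.congr ?_
  intro x hx
  have hx' : (0 : ℝ) < x := hx
  simp only [Function.comp_apply, gf]
  have p1 := gf_den_pos n hx'
  have p2 := gf_den_pos n (x := 1) one_pos
  have p3 : (0 : ℝ) < (n : ℝ) ^ (x - 1) := rpow_pos_of_pos hn' _
  have e1 : log (∏ k ∈ range n, Gamma ((x + k) / n)) = ∑ k ∈ range n, log (Gamma ((x + k) / n)) :=
    log_prod fun k _ => (Gamma_pos_of_pos (by positivity)).ne'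
  rw [log_div (mul_pos p3 p1).ne' p2.ne', log_mul p3.ne' p1.ne', log_rpow hn', e1]
  ring

theorem gauss_mul {n : ℕ} (hn : 0 < n) {x : ℝ} (hx : 0 < x) : gf n x = Gamma x :=
  Real.eq_Gamma_of_log_convex (gf_convex hn) (fun {_} hy => gf_add_one hn hy)
    (fun {_} hy => gf_pos hn hy) gf_one hx

/-- The logarithmic form. -/
theorem sum_log_gamma {n : ℕ} (hn : 0 < n) {x : ℝ} (hx : 0 < x) :
    ∑ k ∈ range n, log (Gamma ((x + k) / n)) =
      log (Gamma x) + (1 - x) * log n + ∑ k ∈ range n, log (Gamma ((1 + k) / n)) := by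
  have hn' : (0 : ℝ) < n := by exact_mod_cast hn
  have h := congrArg log (gauss_mul hn hx)
  have p1 := gf_den_pos n hx
  have p2 := gf_den_pos n (x := 1) one_pos
  have p3 : (0 : ℝ) < (n : ℝ) ^ (x - 1) := rpow_pos_of_pos hn' _
  unfold gf at h
  have e1 : log (∏ k ∈ range n, Gamma ((x + k) / n)) = ∑ k ∈ range n, log (Gamma ((x + k) / n)) :=
    log_prod fun k _ => (Gamma_pos_of_pos (by positivity)).ne'
  have e2 : log (∏ k ∈ range n, Gamma ((1 + k) / n)) = ∑ k ∈ range n, log (Gamma ((1 + k) / n)) :=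
    log_prod fun k _ => (Gamma_pos_of_pos (by positivity)).ne'
  rw [log_div (mul_pos p3 p1).ne' p2.ne', log_mul p3.ne' p1.ne', log_rpow hn', e1, e2] at h
  linarith

end Pool.Agent.TH17.LR
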