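import Mathlib
import Pool.Agent.TH17.LR.Gauss

/-! Logarithms of Gamma values modulo logarithms of numbers algebraic over `ℚ(π)`. -/

open Finset Cardinal

namespace Pool.Agent.TH17.LR

/-- An upper bound for the transcendence degree of a subfield of `ℂ`. -/
theorem trdeg_le (F : IntermediateField ℚ ℂ) (S : Set ℂ) (hS : S ⊆ F)
    (h : ∀ x ∈ F, IsAlgebraic (Algebra.adjoin ℚ S) x) : Algebra.trdeg ℚ F ≤ #S := by
  let s : Set F := (fun x : F => (x : ℂ)) ⁻¹' S
  have hmem : ∀ x : Algebra.adjoin ℚ s, ((x : F) : ℂ) ∈ Algebra.adjoin ℚ S := by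
    intro x
    have h1 : (x : F) ∈ (Algebra.adjoin ℚ S).comap F.val := by
      have : Algebra.adjoin ℚ s ≤ (Algebra.adjoin ℚ S).comap F.val := by
        refine Algebra.adjoin_le fun y hy => ?_
        exact Algebra.subset_adjoin hy
      exact this x.2
    exact h1
  let f : Algebra.adjoin ℚ s →+* Algebra.adjoin ℚ S :=
    ((F.val.comp (Algebra.adjoin ℚ s).val).codRestrict (Algebra.adjoin ℚ S) hmem).toRingHom
  have hf : Function.Surjective f := by
    rintro ⟨y, hy⟩
    have h2 : Algebra.adjoin ℚ S ≤ (Algebra.adjoin ℚ s).map F.val := by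
      refine Algebra.adjoin_le fun z hz => ?_
      exact ⟨⟨z, hS hz⟩, Algebra.subset_adjoin hz, rfl⟩
    obtain ⟨z, hz, hzy⟩ := h2 hy
    exact ⟨⟨z, hz⟩, Subtype.ext hzy⟩
  have : Algebra.IsAlgebraic (Algebra.adjoin ℚ s) F := by
    refine ⟨fun x => IsAlgebraic.of_ringHom_of_comp_eq f F.val.toRingHom (h x x.2) hf ?_ ?_⟩
    · exact F.val.toRingHom.injective
    · ext y
      rfl
  refine (Algebra.IsAlgebraic.trdeg_le_cardinalMk ℚ s).trans ?_
  exact Cardinal.mk_le_of_injective (f := fun x : s => (⟨((x : F) : ℂ), x.2⟩ : S)) (by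
    intro x y hxy
    have h3 : ((x : F) : ℂ) = ((y : F) : ℂ) := congrArg (fun z : S => (z : ℂ)) hxy
    exact Subtype.ext (Subtype.ext h3))

/-- The rational vector space of the real numbers `x` with `exp x` algebraic over `ℚ(S)`. -/
noncomputable def LG (S : Set ℂ) : Submodule ℚ ℝ where
  carrier := {x | IsAlgebraic (IntermediateField.adjoin ℚ S) ((Real.exp x : ℝ) : ℂ)}
  zero_mem' := by
    simp only [Set.mem_ofPred_eq, Real.exp_zero, Complex.ofReal_one]
    exact isAlgebraic_one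
  add_mem' := by
    intro x y hx hy
    simp only [Set.mem_ofPred_eq, Real.exp_add, Complex.ofReal_mul] at hx hy ⊢
    exact hx.mul hy
  smul_mem' := by
    intro r x hx
    simp only [Set.mem_ofPred_eq] at hx ⊢
    refine IsAlgebraic.of_pow r.den_pos ?_
    have e : ((Real.exp (r • x) : ℝ) : ℂ) ^ r.den = ((Real.exp x : ℝ) : ℂ) ^ r.num := by
      have h1 : Real.exp (r • x) ^ r.den = Real.exp x ^ r.num := by
        rw [← Real.exp_nat_mul, ← Real.rpow_intCast, ← Real.exp_mul, mul_comm x]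
        congr 1
        rw [Rat.smul_def, ← mul_assoc]
        congr 1
        have := r.den_mul_eq_num
        exact_mod_cast this
      exact_mod_cast congrArg (fun t : ℝ => (t : ℂ)) h1
    rw [e]
    cases hr : r.num with
    | ofNat n => simpa using hx.pow n
    | negSucc n => simpa [zpow_negSucc] using (hx.pow (n + 1)).inv

theorem mem_LG {S : Set ℂ} {x : ℝ} :
    x ∈ LG S ↔ IsAlgebraic (IntermediateField.adjoin ℚ S) ((Real.exp x : ℝ) : ℂ) := Iff.rfl

theorem log_mem_LG {S : Set ℂ} {x : ℝ} (hx : 0 < x) :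
    Real.log x ∈ LG S ↔ IsAlgebraic (IntermediateField.adjoin ℚ S) (x : ℂ) := by
  rw [mem_LG, Real.exp_log hx]

theorem LG_of_mem {S : Set ℂ} {x : ℝ} (hx : 0 < x) (h : (x : ℂ) ∈ S) : Real.log x ∈ LG S := by
  rw [log_mem_LG hx]
  exact isAlgebraic_algebraMap (⟨(x : ℂ), IntermediateField.subset_adjoin ℚ S h⟩ : IntermediateField.adjoin ℚ S)

theorem LG_of_alg {S : Set ℂ} {x : ℝ} (hx : 0 < x) (h : IsAlgebraic ℤ x) : Real.log x ∈ LG S := by
  rw [log_mem_LG hx]
  have h1 : IsAlgebraic ℤ (x : ℂ) := h.algebraMap (A := ℂ)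
  exact (h1.extendScalars (algebraMap ℤ (IntermediateField.adjoin ℚ S)).injective_int)

theorem log_nat_mem {S : Set ℂ} (n : ℕ) : Real.log n ∈ LG S := by
  rcases Nat.eq_zero_or_pos n with rfl | h
  · simp
  · exact LG_of_alg (by exact_mod_cast h) (by exact_mod_cast isAlgebraic_natCast (R := ℤ) (A := ℝ) n)

/-- `log Γ` -/
noncomputable def lg (x : ℝ) : ℝ := Real.log (Real.Gamma x)

variable {S : Set ℂ}

theorem refl_mem (hS : (Real.pi : ℂ) ∈ S) (r : ℚ) (h0 : 0 < r) (h1 : r < 1) :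
    lg r + lg (1 - r) ∈ LG S := by
  have h0' : (0 : ℝ) < r := by exact_mod_cast h0
  have h1' : (r : ℝ) < 1 := by exact_mod_cast h1
  have hs : 0 < Real.sin (r * Real.pi) := Real.sin_pos_of_pos_of_lt_pi (by positivity)
    (by nlinarith [Real.pi_pos])
  have e : lg r + lg (1 - r) = Real.log Real.pi - Real.log (Real.sin (r * Real.pi)) := by
    unfold lg
    rw [← Real.log_mul (Real.Gamma_pos_of_pos h0').ne' (Real.Gamma_pos_of_pos (by linarith)).ne',
      Real.Gamma_mul_Gamma_one_sub, mul_comm Real.pi, Real.log_div Real.pi_pos.ne' hs.ne']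
  rw [e]
  exact Submodule.sub_mem _ (LG_of_mem Real.pi_pos hS) (LG_of_alg hs (Real.isAlgebraic_sin_rat_mul_pi r))

theorem sum_mem (hS : (Real.pi : ℂ) ∈ S) (n : ℕ) (hn : 0 < n) :
    ∑ k ∈ range n, lg ((1 + k) / n) ∈ LG S := by
  have hn' : (0 : ℝ) < n := by exact_mod_cast hn
  obtain ⟨m, rfl⟩ : ∃ m, n = m + 1 := ⟨n - 1, by omega⟩
  rw [sum_range_succ]
  have e1 : lg ((1 + (m : ℝ)) / ((m + 1 : ℕ) : ℝ)) = 0 := by
    have : (1 + (m : ℝ)) / ((m + 1 : ℕ) : ℝ) = 1 := by
      push_cast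
      rw [add_comm]
      exact div_self (by positivity)
    rw [this]
    simp [lg]
  rw [e1, add_zero]
  have h2 : ∑ k ∈ range m, lg ((1 + k) / ((m + 1 : ℕ) : ℝ)) =
      (1 / 2 : ℚ) • ∑ k ∈ range m, (lg ((1 + k) / ((m + 1 : ℕ) : ℝ)) + lg (1 - (1 + k) / ((m + 1 : ℕ) : ℝ))) := by
    have h3 : ∑ k ∈ range m, lg (1 - (1 + k) / ((m + 1 : ℕ) : ℝ)) = ∑ k ∈ range m, lg ((1 + k) / ((m + 1 : ℕ) : ℝ)) := by
      rw [← sum_range_reflect]
      refine sum_congr rfl fun k hk => ?_
      have hk' : k < m := mem_range.1 hk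
      congr 1
      have : ((m - 1 - k : ℕ) : ℝ) = m - 1 - k := by
        rw [Nat.sub_sub, Nat.cast_sub (by omega)]
        push_cast; ring
      rw [this]
      push_cast
      field_simp
      ring
    rw [Finset.sum_add_distrib, h3, Rat.smul_def]
    push_cast
    ring
  rw [h2]
  refine Submodule.smul_mem _ _ (Submodule.sum_mem _ fun k hk => ?_)
  have hk' : k < m := mem_range.1 hk
  have := refl_mem hS ((1 + k) / ((m + 1 : ℕ) : ℚ)) (by positivity)
    (by rw [div_lt_one (by positivity)]; push_cast; have : (k : ℚ) < m := by exact_mod_cast hk'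
        linarith)
  push_cast at this ⊢
  exact this

/-- The distribution relation. -/
theorem dist_mem (hS : (Real.pi : ℂ) ∈ S) (n : ℕ) (hn : 0 < n) (x : ℚ) (hx : 0 < x) :
    ∑ k ∈ range n, lg ((x + k) / n) - lg x ∈ LG S := by
  have hx' : (0 : ℝ) < x := by exact_mod_cast hx
  have h := sum_log_gamma hn hx'
  have e : ∑ k ∈ range n, lg ((x + k) / n) - lg x =
      (1 - x : ℚ) • Real.log n + ∑ k ∈ range n, lg ((1 + k) / n) := by
    rw [Rat.smul_def]
    unfold lg
    rw [h]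
    push_cast
    ring
  rw [e]
  exact Submodule.add_mem _ (Submodule.smul_mem _ _ (log_nat_mem n)) (sum_mem hS n hn)

end Pool.Agent.TH17.LR
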