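import Mathlib
import Pool.Agent.TH17.LR.Alg

/-! The relation between the Gamma values at `a / q`, `gcd (a, q) = 1`, `q = p ^ e m`, coming from the
powers of `p` modulo `m`. -/

open Finset

namespace Pool.Agent.TH17.LR

variable {S : Set ℂ}

/-- Sum over a union of residue classes modulo `m`, at level `n m`. -/
theorem level_mem (hS : (Real.pi : ℂ) ∈ S) {m : ℕ} (hm : 0 < m) (Q : ℕ → Prop) [DecidablePred Q]
    (hQ : ∀ a, Q (a + m) ↔ Q a) (h0 : ¬ Q 0) (n : ℕ) (hn : 0 < n) :
    ∑ a ∈ (range (n * m)).filter Q, lg (a / ((n * m : ℕ) : ℝ)) -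
      ∑ b ∈ (range m).filter Q, lg (b / (m : ℝ)) ∈ LG S := by
  have hQ' : ∀ k a, Q (a + m * k) ↔ Q a := by
    intro k a
    induction k with
    | zero => simp
    | succ k ih => rw [mul_add, mul_one, ← add_assoc, hQ, ih]
  have e : ∑ a ∈ (range (n * m)).filter Q, lg (a / ((n * m : ℕ) : ℝ)) =
      ∑ b ∈ (range m).filter Q, ∑ k ∈ range n, lg (((b : ℝ) / m + k) / n) := by
    rw [← sum_product']
    symm
    refine sum_nbij (fun x => x.1 + m * x.2) ?_ ?_ ?_ ?_
    · rintro ⟨b, k⟩ h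
      simp only [mem_product, mem_filter, mem_range] at h ⊢
      refine ⟨?_, (hQ' k b).2 h.1.2⟩
      calc b + m * k < m + m * k := by omega
        _ = m * (k + 1) := by ring
        _ ≤ m * n := Nat.mul_le_mul_left _ h.2
        _ = n * m := mul_comm _ _
    · rintro ⟨b, k⟩ h ⟨b', k'⟩ h' heq
      simp only [coe_product, coe_filter, coe_range, Set.mem_prod, Set.mem_ofPred_eq, mem_range,
        Set.mem_Iio] at h h' heq
      have h1 : (b + m * k) % m = (b' + m * k') % m := by rw [heq]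
      rw [Nat.add_mul_mod_self_left, Nat.add_mul_mod_self_left, Nat.mod_eq_of_lt h.1.1,
        Nat.mod_eq_of_lt h'.1.1] at h1
      subst h1
      have h2 : m * k = m * k' := by omega
      have h3 := Nat.eq_of_mul_eq_mul_left hm h2
      rw [h3]
    · intro a ha
      simp only [coe_filter, mem_range, Set.mem_ofPred_eq] at ha
      refine ⟨(a % m, a / m), ?_, ?_⟩
      · simp only [coe_product, coe_filter, coe_range, Set.mem_prod, Set.mem_ofPred_eq, mem_range,
          Set.mem_Iio]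
        refine ⟨⟨Nat.mod_lt _ hm, ?_⟩, ?_⟩
        · rw [← hQ' (a / m), Nat.mod_add_div]
          exact ha.2
        · exact Nat.div_lt_of_lt_mul (by rw [mul_comm]; exact ha.1)
      · exact Nat.mod_add_div a m
    · rintro ⟨b, k⟩ h
      congr 1
      have hm' : (m : ℝ) ≠ 0 := by exact_mod_cast hm.ne'
      have hn' : (n : ℝ) ≠ 0 := by exact_mod_cast hn.ne'
      push_cast
      field_simp
  rw [e, ← sum_sub_distrib]
  refine Submodule.sum_mem _ fun b hb => ?_
  have hb' := (mem_filter.1 hb)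
  have hb0 : 0 < b := by
    rcases Nat.eq_zero_or_pos b with h | h
    · exact absurd (h ▸ hb'.2) h0
    · exact h
  have := dist_mem hS n hn ((b : ℚ) / m) (by
    have : (0 : ℚ) < m := by exact_mod_cast hm
    have : (0 : ℚ) < b := by exact_mod_cast hb0
    positivity)
  push_cast at this
  exact this

/-- **The relation.**  Let `q = p ^ (e+1) m`, `Q` a property of residues modulo `m`, invariant under
multiplication by `p`, not holding at `0`.  Then the sum of `log Γ(a / q)` over `a < q` prime to `p` with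
`Q a` is the logarithm of a number algebraic over `ℚ(π)`. -/
theorem rel_mem (hS : (Real.pi : ℂ) ∈ S) {m p : ℕ} (hm : 0 < m) (hp : 0 < p) (e : ℕ) (Q : ℕ → Prop)
    [DecidablePred Q] (hQ : ∀ a, Q (a + m) ↔ Q a) (h0 : ¬ Q 0) (hQp : ∀ a, Q (p * a) ↔ Q a) :
    ∑ a ∈ (range (p ^ (e + 1) * m)).filter (fun a => Q a ∧ ¬ p ∣ a),
      lg (a / ((p ^ (e + 1) * m : ℕ) : ℝ)) ∈ LG S := by
  have h1 := level_mem hS hm Q hQ h0 (p ^ (e + 1)) (by positivity)
  have h2 := level_mem hS hm Q hQ h0 (p ^ e) (by positivity)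
  have h3 := Submodule.sub_mem _ h1 h2
  rw [sub_sub_sub_cancel_right] at h3
  have e1 : ∑ a ∈ (range (p ^ (e + 1) * m)).filter Q, lg (a / ((p ^ (e + 1) * m : ℕ) : ℝ)) =
      ∑ a ∈ (range (p ^ (e + 1) * m)).filter (fun a => Q a ∧ ¬ p ∣ a), lg (a / ((p ^ (e + 1) * m : ℕ) : ℝ)) +
      ∑ a ∈ (range (p ^ (e + 1) * m)).filter (fun a => Q a ∧ p ∣ a), lg (a / ((p ^ (e + 1) * m : ℕ) : ℝ)) := by
    rw [← filter_filter, ← filter_filter]
    exact (sum_filter_add_sum_filter_not ((range (p ^ (e + 1) * m)).filter Q) (fun a => p ∣ a)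
      (fun a : ℕ => lg (a / ((p ^ (e + 1) * m : ℕ) : ℝ)))).symm.trans (add_comm _ _)
  have e2 : ∑ a ∈ (range (p ^ (e + 1) * m)).filter (fun a => Q a ∧ p ∣ a), lg (a / ((p ^ (e + 1) * m : ℕ) : ℝ)) =
      ∑ a ∈ (range (p ^ e * m)).filter Q, lg (a / ((p ^ e * m : ℕ) : ℝ)) := by
    symm
    refine sum_nbij (fun a => p * a) ?_ ?_ ?_ ?_
    · intro a ha
      simp only [mem_filter, mem_range] at ha ⊢
      refine ⟨?_, (hQp a).2 ha.2, dvd_mul_right _ _⟩
      calc p * a < p * (p ^ e * m) := Nat.mul_lt_mul_of_pos_left ha.1 hp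
        _ = p ^ (e + 1) * m := by ring
    · intro a _ a' _ h
      exact Nat.eq_of_mul_eq_mul_left hp h
    · intro a ha
      simp only [coe_filter, mem_range, Set.mem_ofPred_eq] at ha
      obtain ⟨h4, h5, b, rfl⟩ := ha
      refine ⟨b, ?_, rfl⟩
      simp only [coe_filter, mem_range, Set.mem_ofPred_eq]
      refine ⟨?_, (hQp b).1 h5⟩
      have : p * b < p * (p ^ e * m) := by
        calc p * b < p ^ (e + 1) * m := h4
          _ = p * (p ^ e * m) := by ring
      exact lt_of_mul_lt_mul_left this (Nat.zero_le _)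
    · intro a _
      congr 1
      have hp' : (p : ℝ) ≠ 0 := by exact_mod_cast hp.ne'
      have hm' : (m : ℝ) ≠ 0 := by exact_mod_cast hm.ne'
      push_cast
      rw [pow_succ]
      field_simp
  rw [e1, e2, add_sub_cancel_right] at h3
  exact h3

end Pool.Agent.TH17.LR
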