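import Mathlib
import Pool.Agent.TH17.LR.Rel

/-! The transcendence degree of the field generated by `π` and the Gamma values at `a / q`,
`gcd (a, q) = 1`, when `-1` is not a power of `p` modulo `m`, `q = p ^ (e + 1) m`. -/

open Finset Cardinal

namespace Pool.Agent.TH17.LR

/-- The generators. -/
def gens (q : ℕ) : Set ℂ :=
  {(Real.pi : ℂ)} ∪ {z | ∃ a : ℕ, 1 ≤ a ∧ a ≤ q - 1 ∧ Nat.gcd a q = 1 ∧ z = Complex.Gamma ((a : ℂ) / (q : ℂ))}

/-- `F_q` -/
noncomputable def Fq (q : ℕ) : IntermediateField ℚ ℂ := IntermediateField.adjoin ℚ (gens q)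

theorem gamma_eq (a q : ℕ) : Complex.Gamma ((a : ℂ) / (q : ℂ)) = ((Real.Gamma ((a : ℝ) / q) : ℝ) : ℂ) := by
  rw [← Complex.Gamma_ofReal]
  push_cast
  rfl

/-- If the logarithms of all the Gamma values lie in `LG S`, the transcendence degree is at most `#S`. -/
theorem trdeg_Fq_le (q : ℕ) (S : Set ℂ) (hS : S ⊆ gens q) (hpi : (Real.pi : ℂ) ∈ S)
    (h : ∀ a : ℕ, 1 ≤ a → a ≤ q - 1 → Nat.gcd a q = 1 → lg (a / (q : ℝ)) ∈ LG S) :
    Algebra.trdeg ℚ (Fq q) ≤ #S := by
  refine trdeg_le (Fq q) S (fun x hx => IntermediateField.subset_adjoin ℚ _ (hS hx)) ?_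
  have hle : Fq q ≤ (algebraicClosure (IntermediateField.adjoin ℚ S) ℂ).restrictScalars ℚ := by
    unfold Fq
    rw [IntermediateField.adjoin_le_iff]
    rintro x (hx | ⟨a, h1, h2, h3, rfl⟩)
    · rw [hx]
      exact mem_algebraicClosure_iff.2 (isAlgebraic_algebraMap
        (⟨(Real.pi : ℂ), IntermediateField.subset_adjoin ℚ S hpi⟩ : IntermediateField.adjoin ℚ S))
    · refine mem_algebraicClosure_iff.2 ?_
      have h4 := h a h1 h2 h3
      unfold lg at h4
      rw [gamma_eq]
      refine (log_mem_LG (Real.Gamma_pos_of_pos ?_)).1 h4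
      have : (0 : ℝ) < a := by exact_mod_cast h1
      have : (0 : ℝ) < q := by
        have : 0 < q := by omega
        exact_mod_cast this
      positivity
  intro x hx
  exact IntermediateField.isAlgebraic_adjoin_iff.1 (mem_algebraicClosure_iff.1 (hle hx))

/-- Reflection at level `q`. -/
theorem refl_q {S : Set ℂ} (hpi : (Real.pi : ℂ) ∈ S) {a q : ℕ} (h1 : 1 ≤ a) (h2 : a < q) :
    lg (a / (q : ℝ)) + lg (((q - a : ℕ) : ℝ) / (q : ℝ)) ∈ LG S := by
  have hq : (0 : ℚ) < q := by exact_mod_cast (by omega : 0 < q)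
  have h := refl_mem hpi ((a : ℚ) / q) (by
    have : (0 : ℚ) < a := by exact_mod_cast h1
    positivity) (by rw [div_lt_one hq]; exact_mod_cast h2)
  have e : (((q - a : ℕ) : ℝ) / (q : ℝ)) = 1 - (((a : ℚ) / (q : ℚ) : ℚ) : ℝ) := by
    rw [Nat.cast_sub h2.le]
    have : (q : ℝ) ≠ 0 := by exact_mod_cast (by omega : q ≠ 0)
    push_cast
    field_simp
  rw [e]
  push_cast at h ⊢
  exact h

theorem half (p e m : ℕ) (hp : p.Prime) (hpm : ¬ p ∣ m) (hm : 0 < m)
    (hneg : ∀ i : ℕ, (p : ZMod m) ^ i ≠ -1) :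
    Algebra.trdeg ℚ (Fq (p ^ (e + 1) * m)) ≤ (Nat.totient (p ^ (e + 1) * m) / 2 : ℕ) := by
  classical
  obtain ⟨q, hq⟩ : ∃ q, q = p ^ (e + 1) * m := ⟨_, rfl⟩
  -- `m ≥ 3`
  have hm1 : m ≠ 1 := by
    rintro rfl
    exact hneg 0 (Subsingleton.elim _ _)
  have hm2 : 1 < m := by omega
  have : Fact (1 < m) := ⟨hm2⟩
  have hcop : Nat.Coprime p m := (Nat.Prime.coprime_iff_not_dvd hp).2 hpm
  let P : (ZMod m)ˣ := ZMod.unitOfCoprime p hcop
  have hP : (P : ZMod m) = p := ZMod.coe_unitOfCoprime p hcop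
  let Q : ℕ → Prop := fun a => ∃ i : ℤ, (a : ZMod m) = ((P ^ i : (ZMod m)ˣ) : ZMod m)
  have hQ1 : Q 1 := ⟨0, by simp⟩
  have hQ : ∀ a, Q (a + m) ↔ Q a := fun a => by simp [Q]
  have h0 : ¬ Q 0 := by
    rintro ⟨i, hi⟩
    rw [Nat.cast_zero] at hi
    exact (Units.ne_zero (P ^ i)) hi.symm
  have hQp : ∀ a, Q (p * a) ↔ Q a := by
    intro a
    constructor
    · rintro ⟨i, hi⟩
      refine ⟨i - 1, ?_⟩
      have h1 : (P : ZMod m) * (a : ZMod m) = (P : ZMod m) * ((P ^ (i - 1) : (ZMod m)ˣ) : ZMod m) := by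
        rw [hP, ← Nat.cast_mul, hi, ← hP, ← Units.val_mul, mul_comm, ← zpow_add_one, sub_add_cancel]
      exact (Units.mul_right_inj P).1 h1
    · rintro ⟨i, hi⟩
      refine ⟨i + 1, ?_⟩
      rw [Nat.cast_mul, hi, ← hP, zpow_add_one, mul_comm P.val, Units.val_mul]
  have hQneg : ∀ a b, Q a → Q b → (m ∣ a + b) → False := by
    rintro a b ⟨i, hi⟩ ⟨j, hj⟩ hab
    have h1 : ((a + b : ℕ) : ZMod m) = 0 := (ZMod.natCast_eq_zero_iff _ _).2 hab
    rw [Nat.cast_add, hi, hj] at h1
    -- `P ^ i = - P ^ j`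
    have h2 : ((P ^ (i - j) : (ZMod m)ˣ) : ZMod m) = -1 := by
      have h3 : ((P ^ i : (ZMod m)ˣ) : ZMod m) = - ((P ^ j : (ZMod m)ˣ) : ZMod m) := eq_neg_of_add_eq_zero_left h1
      have h4 : (P ^ i : (ZMod m)ˣ) = - P ^ j := Units.ext (by rw [h3, Units.val_neg])
      rw [zpow_sub, h4]
      simp
    obtain ⟨n, hn⟩ : ∃ n : ℕ, P ^ (i - j) = P ^ n := by
      have := (mem_powers_iff_mem_zpowers (x := P) (y := P ^ (i - j))).2 ⟨i - j, rfl⟩
      obtain ⟨n, hn⟩ := this
      exact ⟨n, hn.symm⟩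
    rw [hn, Units.val_pow_eq_pow_val, hP] at h2
    exact hneg n h2
  have hQcop : ∀ a, Q a → Nat.Coprime a m := by
    rintro a ⟨i, hi⟩
    rw [← ZMod.isUnit_iff_coprime, hi]
    exact Units.isUnit _
  have hqpos : 0 < q := by rw [hq]; have := hp.pos; positivity
  have hq2 : m ≤ q := by rw [hq]; exact Nat.le_mul_of_pos_left _ (pow_pos hp.pos _)
  have hcopq : ∀ a, Nat.Coprime a q ↔ ¬ p ∣ a ∧ Nat.Coprime a m := by
    intro a
    rw [hq, Nat.coprime_mul_iff_right, Nat.coprime_pow_right_iff (Nat.succ_pos e)]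
    refine and_congr_left' ?_
    rw [Nat.coprime_comm]
    exact Nat.Prime.coprime_iff_not_dvd hp
  -- half of the residues
  let I : Finset ℕ := (range q).filter fun a => Nat.Coprime a q ∧ 2 * a < q
  have hI0 : ∀ a ∈ I, 1 ≤ a := by
    intro a ha
    have h1 := (mem_filter.1 ha).2.1
    rcases Nat.eq_zero_or_pos a with h | h
    · rw [h, Nat.coprime_zero_left] at h1
      omega
    · exact h
  have h1I : 1 ∈ I := by
    refine mem_filter.2 ⟨mem_range.2 (by omega), Nat.coprime_one_left q, ?_⟩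
    have : 2 ≠ m := by
      rintro rfl
      exact hneg 0 (by rw [pow_zero]; decide)
    omega
  have hcard : 2 * I.card ≤ Nat.totient q := by
    have h1 : I.card + (I.image fun a => q - a).card ≤ Nat.totient q := by
      rw [Nat.totient_eq_card_coprime, ← card_union_of_disjoint]
      · refine card_le_card fun a ha => ?_
        rcases mem_union.1 ha with h | h
        · have := mem_filter.1 h
          exact mem_filter.2 ⟨this.1, this.2.1.symm⟩
        · obtain ⟨b, hb, rfl⟩ := mem_image.1 h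
          have h2 := mem_filter.1 hb
          have h3 := hI0 b hb
          refine mem_filter.2 ⟨mem_range.2 (by omega), ?_⟩
          have h4 : b < q := mem_range.1 h2.1
          exact (Nat.coprime_self_sub_right h4.le).2 h2.2.1.symm
      · rw [disjoint_left]
        intro a ha hb
        obtain ⟨b, hb', hba⟩ := mem_image.1 hb
        have h2 := (mem_filter.1 ha).2.2
        have h3 := (mem_filter.1 hb').2.2
        omega
    rw [card_image_of_injOn] at h1
    · omega
    · intro a ha b hb hab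
      have h2 := mem_range.1 (mem_filter.1 ha).1
      have h3 := mem_range.1 (mem_filter.1 hb).1
      simp only at hab
      omega
  let S : Set ℂ := {(Real.pi : ℂ)} ∪ ((I.erase 1).image fun a : ℕ => Complex.Gamma ((a : ℂ) / (q : ℂ)) : Finset ℂ)
  have hpi : (Real.pi : ℂ) ∈ S := Or.inl rfl
  have hSc : #S ≤ (I.card : ℕ) := by
    have h1 : #S ≤ #({(Real.pi : ℂ)} : Set ℂ) +
        #(((I.erase 1).image fun a : ℕ => Complex.Gamma ((a : ℂ) / (q : ℂ)) : Finset ℂ) : Set ℂ) :=
      Cardinal.mk_union_le _ _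
    refine h1.trans ?_
    rw [Cardinal.mk_singleton]
    have h2 : #(((I.erase 1).image fun a : ℕ => Complex.Gamma ((a : ℂ) / (q : ℂ)) : Finset ℂ) : Set ℂ) ≤
        ((I.erase 1).card : ℕ) := by
      refine (le_of_eq (Cardinal.mk_coe_finset
        (s := (I.erase 1).image fun a : ℕ => Complex.Gamma ((a : ℂ) / (q : ℂ))))).trans ?_
      exact_mod_cast card_image_le
    refine (add_le_add_right h2 1).trans ?_
    rw [card_erase_of_mem h1I]
    have h3 : 1 ≤ I.card := card_pos.2 ⟨1, h1I⟩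
    have h4 : 1 + (I.card - 1) = I.card := by omega
    exact_mod_cast h4.le
  have hgen : ∀ a ∈ I, a ≠ 1 → lg (a / (q : ℝ)) ∈ LG S := by
    intro a ha ha1
    have h1 : (0 : ℝ) < a := by exact_mod_cast hI0 a ha
    have h2 : (0 : ℝ) < q := by exact_mod_cast hqpos
    refine LG_of_mem (Real.Gamma_pos_of_pos (by positivity)) ?_
    rw [← gamma_eq]
    exact Or.inr (mem_coe.2 (mem_image.2 ⟨a, mem_erase.2 ⟨ha1, ha⟩, rfl⟩))
  have hrel := rel_mem hpi hm hp.pos e Q hQ h0 hQp
  rw [← hq] at hrel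
  let J : Finset ℕ := (range q).filter fun a => Q a ∧ ¬ p ∣ a
  have hJcop : ∀ a ∈ J, Nat.Coprime a q := fun a ha =>
    (hcopq a).2 ⟨(mem_filter.1 ha).2.2, hQcop a (mem_filter.1 ha).2.1⟩
  have h1J : 1 ∈ J := by
    refine mem_filter.2 ⟨mem_range.2 (by omega), hQ1, ?_⟩
    exact fun h => hp.one_lt.ne' (Nat.dvd_one.1 h)
  have hother : ∀ a ∈ J.erase 1, lg (a / (q : ℝ)) ∈ LG S := by
    intro a ha
    obtain ⟨ha1, haJ⟩ := mem_erase.1 ha
    have hac := hJcop a haJ
    have haq : a < q := mem_range.1 (mem_filter.1 haJ).1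
    by_cases h2 : 2 * a < q
    · exact hgen a (mem_filter.2 ⟨mem_range.2 haq, hac, h2⟩) ha1
    · have ha0 : 1 ≤ a := by omega
      have h3 := refl_q hpi ha0 haq
      have h4 : lg (((q - a : ℕ) : ℝ) / (q : ℝ)) ∈ LG S := by
        refine hgen (q - a) (mem_filter.2 ⟨mem_range.2 (by omega), ?_, ?_⟩) ?_
        · exact ((Nat.coprime_self_sub_right haq.le).2 hac.symm).symm
        · rcases (not_lt.1 h2).lt_or_eq with h | h
          · omega
          · exfalso
            -- `q = 2 a`, `a` coprime to `q`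
            have h5 : a ∣ q := ⟨2, by omega⟩
            have h6 : a = 1 := by
              have := Nat.Coprime.eq_one_of_dvd hac h5
              exact this
            omega
        · intro h5
          refine hQneg a 1 (mem_filter.1 haJ).2.1 hQ1 ?_
          have : a + 1 = q := by omega
          rw [this, hq]
          exact dvd_mul_left _ _
      have h5 := Submodule.sub_mem _ h3 h4
      rwa [add_sub_cancel_right] at h5
  have hone : lg (((1 : ℕ) : ℝ) / (q : ℝ)) ∈ LG S := by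
    have h2 := add_sum_erase J (fun a : ℕ => lg (a / (q : ℝ))) h1J
    have h3 := Submodule.sub_mem _ hrel (Submodule.sum_mem _ hother)
    rw [← h2, add_sub_cancel_right] at h3
    exact h3
  have hhalf : ∀ a ∈ I, lg (a / (q : ℝ)) ∈ LG S := by
    intro a ha
    by_cases h : a = 1
    · rw [h]; exact hone
    · exact hgen a ha h
  rw [← hq]
  refine (trdeg_Fq_le q S ?_ hpi ?_).trans (hSc.trans ?_)
  · rintro x (hx | hx)
    · exact Or.inl hx
    · refine Or.inr ?_
      obtain ⟨a, ha, rfl⟩ := mem_image.1 (mem_coe.1 hx)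
      have h1 := mem_erase.1 ha
      have h2 := mem_filter.1 h1.2
      exact ⟨a, hI0 a h1.2, by have := mem_range.1 h2.1; omega, h2.2.1, rfl⟩
  · intro a h1 h2 h3
    by_cases h4 : 2 * a < q
    · exact hhalf a (mem_filter.2 ⟨mem_range.2 (by omega), h3, h4⟩)
    · have haq : a < q := by omega
      have h5 := refl_q hpi h1 haq
      have h6 : lg (((q - a : ℕ) : ℝ) / (q : ℝ)) ∈ LG S := by
        refine hhalf (q - a) (mem_filter.2 ⟨mem_range.2 (by omega), ?_, ?_⟩)
        · exact ((Nat.coprime_self_sub_right haq.le).2 (Nat.Coprime.symm h3)).symm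
        · rcases (not_lt.1 h4).lt_or_eq with h | h
          · omega
          · exfalso
            have h5 : a ∣ q := ⟨2, by omega⟩
            have h6 : a = 1 := Nat.Coprime.eq_one_of_dvd h3 h5
            have : 2 < q := by
              have := (mem_filter.1 h1I).2.2
              omega
            omega
      have h7 := Submodule.sub_mem _ h5 h6
      rwa [add_sub_cancel_right] at h7
  · have : I.card ≤ Nat.totient q / 2 := by omega
    exact_mod_cast this

end Pool.Agent.TH17.LR
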