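import Mathlib
import Pool.Agent.TH17.LR.Half

/-! The relations between the Gamma values at `a / q`, indexed by the units of `ZMod q`. -/

open Finset Cardinal

namespace Pool.Agent.TH17.LR

/-- `log Γ(a / q)` for a unit `a` modulo `q`. -/
noncomputable def vv (q : ℕ) (u : (ZMod q)ˣ) : ℝ := lg (((u : ZMod q).val : ℝ) / (q : ℝ))

theorem vv_neg {S : Set ℂ} (hpi : (Real.pi : ℂ) ∈ S) {q : ℕ} (hq : 2 < q) (u : (ZMod q)ˣ) :
    vv q u + vv q (-u) ∈ LG S := by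
  have : NeZero q := ⟨by omega⟩
  have : Fact (1 < q) := ⟨by omega⟩
  have h0 : (u : ZMod q) ≠ 0 := u.ne_zero
  have h1 : 1 ≤ (u : ZMod q).val := Nat.one_le_iff_ne_zero.2 (by rwa [Ne, ZMod.val_eq_zero])
  have h2 : (u : ZMod q).val < q := ZMod.val_lt _
  have h3 : ((-u : (ZMod q)ˣ) : ZMod q).val = q - (u : ZMod q).val := by
    have : NeZero (u : ZMod q) := ⟨h0⟩
    rw [Units.val_neg, ZMod.val_neg_of_ne_zero]
  unfold vv
  rw [h3]
  exact refl_q hpi h1 h2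

theorem coset_mem {S : Set ℂ} (hpi : (Real.pi : ℂ) ∈ S) {p m e : ℕ} (hp : p.Prime)
    (hm2 : 1 < m) (hmq : m ∣ p ^ (e + 1) * m) (c P : (ZMod m)ˣ) (hP : (P : ZMod m) = p)
    [NeZero (p ^ (e + 1) * m)] [DecidablePred fun u : (ZMod (p ^ (e + 1) * m))ˣ =>
      ∃ i : ℤ, ZMod.unitsMap hmq u = c * P ^ i] :
    ∑ u ∈ univ.filter (fun u : (ZMod (p ^ (e + 1) * m))ˣ =>
      ∃ i : ℤ, ZMod.unitsMap hmq u = c * P ^ i), vv (p ^ (e + 1) * m) u ∈ LG S := by
  classical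
  have : Fact (1 < m) := ⟨hm2⟩
  have : NeZero m := ⟨by omega⟩
  let Q : ℕ → Prop := fun a => ∃ i : ℤ, (a : ZMod m) = ((c * P ^ i : (ZMod m)ˣ) : ZMod m)
  have hQ : ∀ a, Q (a + m) ↔ Q a := fun a => by simp [Q]
  have h0 : ¬ Q 0 := by
    rintro ⟨i, hi⟩
    rw [Nat.cast_zero] at hi
    exact (Units.ne_zero (c * P ^ i)) hi.symm
  have hQp : ∀ a, Q (p * a) ↔ Q a := by
    intro a
    constructor
    · rintro ⟨i, hi⟩
      refine ⟨i - 1, ?_⟩
      have h1 : (P : ZMod m) * (a : ZMod m) = (P : ZMod m) * ((c * P ^ (i - 1) : (ZMod m)ˣ) : ZMod m) := by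
        rw [hP, ← Nat.cast_mul, hi, ← hP, ← Units.val_mul, mul_left_comm, mul_comm P, ← zpow_add_one,
          sub_add_cancel]
      exact (Units.mul_right_inj P).1 h1
    · rintro ⟨i, hi⟩
      refine ⟨i + 1, ?_⟩
      rw [Nat.cast_mul, hi, ← hP, zpow_add_one, ← Units.val_mul]
      congr 1
      rw [mul_comm P, mul_assoc]
  have hQcop : ∀ a, Q a → Nat.Coprime a m := by
    rintro a ⟨i, hi⟩
    rw [← ZMod.isUnit_iff_coprime, hi]
    exact Units.isUnit _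
  have hrel := rel_mem (S := S) hpi (by omega) hp.pos e Q hQ h0 hQp
  have hcopq : ∀ a, Nat.Coprime a (p ^ (e + 1) * m) ↔ ¬ p ∣ a ∧ Nat.Coprime a m := by
    intro a
    rw [Nat.coprime_mul_iff_right, Nat.coprime_pow_right_iff (Nat.succ_pos e)]
    refine and_congr_left' ?_
    rw [Nat.coprime_comm]
    exact Nat.Prime.coprime_iff_not_dvd hp
  have key : ∀ u : (ZMod (p ^ (e + 1) * m))ˣ, (∃ i : ℤ, ZMod.unitsMap hmq u = c * P ^ i) ↔
      Q (u : ZMod (p ^ (e + 1) * m)).val := by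
    intro u
    have h1 : (((u : ZMod (p ^ (e + 1) * m)).val : ℕ) : ZMod m) = ((ZMod.unitsMap hmq u : (ZMod m)ˣ) : ZMod m) := by
      rw [ZMod.unitsMap_val, ZMod.natCast_val]
    constructor
    · rintro ⟨i, hi⟩
      exact ⟨i, by rw [h1, hi]⟩
    · rintro ⟨i, hi⟩
      exact ⟨i, Units.ext (by rw [← h1, hi])⟩
  have e1 : ∑ u ∈ univ.filter (fun u : (ZMod (p ^ (e + 1) * m))ˣ =>
      ∃ i : ℤ, ZMod.unitsMap hmq u = c * P ^ i), vv (p ^ (e + 1) * m) u =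
      ∑ a ∈ (range (p ^ (e + 1) * m)).filter (fun a => Q a ∧ ¬ p ∣ a),
        lg (a / ((p ^ (e + 1) * m : ℕ) : ℝ)) := by
    refine sum_nbij (fun u => (u : ZMod (p ^ (e + 1) * m)).val) ?_ ?_ ?_ ?_
    · intro u hu
      have hu' := (mem_filter.1 hu).2
      have h2 := ZMod.val_coe_unit_coprime u
      exact mem_filter.2 ⟨mem_range.2 (ZMod.val_lt _), (key u).1 hu', ((hcopq _).1 h2).1⟩
    · intro u _ u' _ h
      exact Units.ext (ZMod.val_injective _ h)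
    · intro a ha
      have ha' := mem_filter.1 (mem_coe.1 ha)
      have h2 : Nat.Coprime a (p ^ (e + 1) * m) := (hcopq a).2 ⟨ha'.2.2, hQcop a ha'.2.1⟩
      have h3 : ((ZMod.unitOfCoprime a h2 : (ZMod (p ^ (e + 1) * m))ˣ) : ZMod (p ^ (e + 1) * m)).val = a := by
        rw [ZMod.coe_unitOfCoprime, ZMod.val_natCast, Nat.mod_eq_of_lt (mem_range.1 ha'.1)]
      refine ⟨ZMod.unitOfCoprime a h2, ?_, h3⟩
      refine mem_coe.2 (mem_filter.2 ⟨mem_univ _, (key _).2 ?_⟩)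
      rw [h3]
      exact ha'.2.1
    · intro u _
      rfl
  rw [e1]
  exact hrel

end Pool.Agent.TH17.LR
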