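import Mathlib
import Pool.Agent.TH17.LR.Unit

/-! The general upper bound for the transcendence degree of `F_q` by Dirichlet characters. -/

open Finset Cardinal

namespace Pool.Agent.TH17.LR

open Classical in
/-- The functions on the units that satisfy the reflection and coset relations. -/
def Adm (q : ℕ) (f : (ZMod q)ˣ → ℂ) : Prop :=
  (∀ u, f (-u) = - f u) ∧
  ∀ (p e m : ℕ), p.Prime → q = p ^ (e + 1) * m → 1 < m → ∀ (hmq : m ∣ q) (c P : (ZMod m)ˣ),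
    (P : ZMod m) = p → ∀ [NeZero q],
      ∑ u ∈ univ.filter (fun u : (ZMod q)ˣ => ∃ i : ℤ, ZMod.unitsMap hmq u = c * P ^ i), f u = 0

theorem fourier_even {q : ℕ} [NeZero q] {f : (ZMod q)ˣ → ℂ} (hf : Adm q f)
    {χ : DirichletCharacter ℂ q} (hχ : χ.Even) : ∑ u : (ZMod q)ˣ, f u * χ ((u⁻¹ : (ZMod q)ˣ) : ZMod q) = 0 := by
  have h1 : ∑ u : (ZMod q)ˣ, f u * χ ((u⁻¹ : (ZMod q)ˣ) : ZMod q) =
      ∑ u : (ZMod q)ˣ, f (-u) * χ (((-u)⁻¹ : (ZMod q)ˣ) : ZMod q) :=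
    (Fintype.sum_equiv (Equiv.neg _) _ _ fun u => rfl).symm
  have h2 : ∑ u : (ZMod q)ˣ, f (-u) * χ (((-u)⁻¹ : (ZMod q)ˣ) : ZMod q) =
      - ∑ u : (ZMod q)ˣ, f u * χ ((u⁻¹ : (ZMod q)ˣ) : ZMod q) := by
    rw [← sum_neg_distrib]
    refine sum_congr rfl fun u _ => ?_
    rw [hf.1 u, inv_neg, Units.val_neg, neg_eq_neg_one_mul ((u⁻¹ : (ZMod q)ˣ) : ZMod q), map_mul, hχ]
    ring
  have h3 := h1.trans h2
  exact self_eq_neg.1 h3

theorem fourier_bad {q : ℕ} [NeZero q] {f : (ZMod q)ˣ → ℂ} (hf : Adm q f) {p e m : ℕ} (hp : p.Prime)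
    (hq : q = p ^ (e + 1) * m) (hm : 1 < m) (hmq : m ∣ q) (P : (ZMod m)ˣ) (hP : (P : ZMod m) = p)
    {χ : DirichletCharacter ℂ q} (ψ : DirichletCharacter ℂ m) (hψ : ψ p = 1)
    (hχ : χ = DirichletCharacter.changeLevel hmq ψ) :
    ∑ u : (ZMod q)ˣ, f u * χ ((u⁻¹ : (ZMod q)ˣ) : ZMod q) = 0 := by
  classical
  let T : Finset (ZMod q)ˣ := univ.filter fun u => ∃ i : ℤ, ZMod.unitsMap hmq u = P ^ i
  have hT1 : (1 : (ZMod q)ˣ) ∈ T := mem_filter.2 ⟨mem_univ _, 0, by simp⟩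
  have hχT : ∀ s ∈ T, χ ((s⁻¹ : (ZMod q)ˣ) : ZMod q) = 1 := by
    intro s hs
    obtain ⟨i, hi⟩ := (mem_filter.1 hs).2
    rw [hχ, DirichletCharacter.changeLevel_eq_cast_of_dvd, ← ZMod.unitsMap_val hmq, map_inv, hi,
      ← zpow_neg]
    have h1 : ψ.toUnitHom P = 1 := by
      rw [← Units.val_inj, MulChar.coe_toUnitHom, hP, hψ, Units.val_one]
    rw [← MulChar.coe_toUnitHom, map_zpow, h1, one_zpow, Units.val_one]
  have hsum : ∀ c : (ZMod q)ˣ, ∑ s ∈ T, f (c * s) = 0 := by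
    intro c
    rw [← hf.2 p e m hp hq hm hmq (ZMod.unitsMap hmq c) P hP]
    refine sum_nbij (fun s => c * s) ?_ ?_ ?_ ?_
    · intro s hs
      obtain ⟨i, hi⟩ := (mem_filter.1 hs).2
      exact mem_filter.2 ⟨mem_univ _, i, by rw [map_mul, hi]⟩
    · intro s _ s' _ h
      exact mul_left_cancel h
    · intro u hu
      obtain ⟨i, hi⟩ := (mem_filter.1 (mem_coe.1 hu)).2
      refine ⟨c⁻¹ * u, mem_coe.2 (mem_filter.2 ⟨mem_univ _, i, ?_⟩), by simp⟩
      rw [map_mul, map_inv, hi, inv_mul_cancel_left]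
    · intro s _
      rfl
  have h1 : ∀ s : (ZMod q)ˣ, ∑ u : (ZMod q)ˣ, f (u * s) * χ (((u * s)⁻¹ : (ZMod q)ˣ) : ZMod q) =
      ∑ u : (ZMod q)ˣ, f u * χ ((u⁻¹ : (ZMod q)ˣ) : ZMod q) := fun s =>
    Fintype.sum_equiv (Equiv.mulRight s) _ _ fun u => rfl
  have h2 : ∑ s ∈ T, ∑ u : (ZMod q)ˣ, f (u * s) * χ (((u * s)⁻¹ : (ZMod q)ˣ) : ZMod q) = 0 := by
    rw [sum_comm]
    refine sum_eq_zero fun u _ => ?_
    have h3 : ∀ s ∈ T, f (u * s) * χ (((u * s)⁻¹ : (ZMod q)ˣ) : ZMod q) =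
        χ ((u⁻¹ : (ZMod q)ˣ) : ZMod q) * f (u * s) := by
      intro s hs
      rw [mul_inv, Units.val_mul, map_mul, hχT s hs]
      ring
    rw [sum_congr rfl h3, ← mul_sum, hsum u, mul_zero]
  rw [sum_congr rfl fun s _ => h1 s, Finset.sum_const, nsmul_eq_mul] at h2
  rcases mul_eq_zero.1 h2 with h | h
  · exfalso
    have : T.card = 0 := by exact_mod_cast h
    rw [card_eq_zero] at this
    rw [this] at hT1
    exact absurd hT1 (notMem_empty _)
  · exact h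

theorem fourier_inv {q : ℕ} [NeZero q] (f : (ZMod q)ˣ → ℂ) (b : (ZMod q)ˣ) :
    ∑ χ : DirichletCharacter ℂ q, (∑ u : (ZMod q)ˣ, f u * χ ((u⁻¹ : (ZMod q)ˣ) : ZMod q)) * χ (b : ZMod q) =
      (q.totient : ℂ) * f b := by
  simp_rw [sum_mul]
  rw [sum_comm]
  have h1 : ∀ u : (ZMod q)ˣ, ∑ χ : DirichletCharacter ℂ q,
      f u * χ ((u⁻¹ : (ZMod q)ˣ) : ZMod q) * χ (b : ZMod q) = if u = b then (q.totient : ℂ) * f b else 0 := by
    intro u
    have h2 := DirichletCharacter.sum_char_inv_mul_char_eq (R := ℂ) (n := q) u.isUnit (b : ZMod q)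
    rw [ZMod.inv_coe_unit] at h2
    simp_rw [mul_assoc]
    rw [← mul_sum, h2]
    by_cases h : u = b
    · subst h
      simp [mul_comm]
    · have h3 : (u : ZMod q) ≠ b := fun h4 => h (Units.ext h4)
      simp [h, h3]
  rw [sum_congr rfl fun u _ => h1 u]
  simp

open Classical in
/-- The odd characters with `χ*(p) ≠ 1` for all primes `p ∣ q`. -/
noncomputable def good (q : ℕ) [NeZero q] : Finset (DirichletCharacter ℂ q) :=
  univ.filter fun χ => χ.Odd ∧ ∀ p : ℕ, p.Prime → p ∣ q → χ.primitiveCharacter p ≠ 1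

open Classical in
/-- The odd characters with `χ*(p) = 1` for some prime `p ∣ q`. -/
noncomputable def bad (q : ℕ) [NeZero q] : Finset (DirichletCharacter ℂ q) :=
  univ.filter fun χ => χ.Odd ∧ ∃ p : ℕ, p.Prime ∧ p ∣ q ∧ χ.primitiveCharacter p = 1

theorem mem_good {q : ℕ} [NeZero q] {χ : DirichletCharacter ℂ q} : χ ∈ good q ↔
    χ.Odd ∧ ∀ p : ℕ, p.Prime → p ∣ q → χ.primitiveCharacter p ≠ 1 := by
  classical
  unfold good
  rw [mem_filter]
  exact ⟨fun h => h.2, fun h => ⟨mem_univ _, h⟩⟩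

theorem mem_bad {q : ℕ} [NeZero q] {χ : DirichletCharacter ℂ q} : χ ∈ bad q ↔
    χ.Odd ∧ ∃ p : ℕ, p.Prime ∧ p ∣ q ∧ χ.primitiveCharacter p = 1 := by
  classical
  unfold bad
  rw [mem_filter]
  exact ⟨fun h => h.2, fun h => ⟨mem_univ _, h⟩⟩

theorem fourier_bad' {q : ℕ} [NeZero q] {f : (ZMod q)ˣ → ℂ} (hf : Adm q f)
    {χ : DirichletCharacter ℂ q} (hχ : χ ∉ good q) :
    ∑ u : (ZMod q)ˣ, f u * χ ((u⁻¹ : (ZMod q)ˣ) : ZMod q) = 0 := by
  rcases χ.even_or_odd with h | hodd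
  · exact fourier_even hf h
  · have h2 : ∃ p : ℕ, p.Prime ∧ p ∣ q ∧ χ.primitiveCharacter p = 1 := by
      by_contra hcon
      exact hχ (mem_good.2 ⟨hodd, fun p hp hpq h => hcon ⟨p, hp, hpq, h⟩⟩)
    obtain ⟨p, hp, hpq, h3⟩ := h2
    have : Fact p.Prime := ⟨hp⟩
    have hcop := Nat.coprime_ordCompl hp (NeZero.ne q)
    rw [← DirichletCharacter.mem_subgroupOfPrimitiveMapToOne_iff,
      DirichletCharacter.subgroupOfPrimitiveMapToOne, Subgroup.mem_map] at h3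
    obtain ⟨ψ, hψ, hψχ⟩ := h3
    rw [DirichletCharacter.mem_annihilator_iff] at hψ
    have h4 := hψ (ZMod.unitOfCoprime p hcop) rfl
    rw [ZMod.coe_unitOfCoprime] at h4
    obtain ⟨e, he⟩ : ∃ e, q.factorization p = e + 1 := by
      have := hp.factorization_pos_of_dvd (NeZero.ne q) hpq
      exact ⟨q.factorization p - 1, by omega⟩
    have hq : q = p ^ (e + 1) * (q / p ^ q.factorization p) := by
      rw [← he]
      exact (Nat.ordProj_mul_ordCompl_eq_self q p).symm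
    have hm : 1 < q / p ^ q.factorization p := by
      have h5 : 0 < q / p ^ q.factorization p := Nat.ordCompl_pos p (NeZero.ne q)
      rcases Nat.lt_or_ge 1 (q / p ^ q.factorization p) with h | h
      · exact h
      · exfalso
        have h6 : q / p ^ q.factorization p = 1 := by omega
        have h7 : ψ = 1 := DirichletCharacter.level_one' ψ h6
        rw [h7, map_one] at hψχ
        have h8 : χ (-1) = -1 := hodd
        rw [← hψχ] at h8
        have h9 : ((1 : DirichletCharacter ℂ q) (-1 : ZMod q)) = 1 := MulChar.one_apply (isUnit_one.neg)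
        rw [h9] at h8
        norm_num at h8
    exact fourier_bad hf hp hq hm (Nat.ordCompl_dvd q p) (ZMod.unitOfCoprime p hcop)
      (ZMod.coe_unitOfCoprime p hcop) ψ h4 hψχ.symm

theorem mem_span_good {q : ℕ} [NeZero q] {f : (ZMod q)ˣ → ℂ} (hf : Adm q f) :
    f ∈ Submodule.span ℂ ((fun χ : DirichletCharacter ℂ q => fun u : (ZMod q)ˣ => χ (u : ZMod q)) ''
      (good q : Set (DirichletCharacter ℂ q))) := by
  have hφ : (q.totient : ℂ) ≠ 0 := by
    have := Nat.totient_pos.2 (NeZero.pos q)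
    exact_mod_cast this.ne'
  have h1 : f = ∑ χ ∈ good q, ((q.totient : ℂ)⁻¹ *
      ∑ u : (ZMod q)ˣ, f u * χ ((u⁻¹ : (ZMod q)ˣ) : ZMod q)) • fun u : (ZMod q)ˣ => χ (u : ZMod q) := by
    funext b
    have h2 := fourier_inv f b
    have h3 : ∑ χ ∈ good q, (∑ u : (ZMod q)ˣ, f u * χ ((u⁻¹ : (ZMod q)ˣ) : ZMod q)) * χ (b : ZMod q) =
        ∑ χ : DirichletCharacter ℂ q,
          (∑ u : (ZMod q)ˣ, f u * χ ((u⁻¹ : (ZMod q)ˣ) : ZMod q)) * χ (b : ZMod q) := by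
      refine sum_subset (subset_univ _) fun χ _ hχ => ?_
      rw [fourier_bad' hf hχ, zero_mul]
    rw [h2] at h3
    simp only [Finset.sum_apply, Pi.smul_apply, smul_eq_mul]
    have h4 : f b = (q.totient : ℂ)⁻¹ * ((q.totient : ℂ) * f b) := by
      rw [inv_mul_cancel_left₀ hφ]
    rw [h4, ← h3, mul_sum]
    refine sum_congr rfl fun χ _ => ?_
    ring
  rw [h1]
  refine Submodule.sum_mem _ fun χ hχ => Submodule.smul_mem _ _ (Submodule.subset_span ⟨χ, ?_, rfl⟩)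
  exact mem_coe.2 hχ

end Pool.Agent.TH17.LR
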