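import Mathlib
import Pool.Agent.TH17.LR.Char

/-! The general upper bound for the transcendence degree of `F_q`. -/

open Finset Cardinal

namespace Pool.Agent.TH17.LR

theorem LG_mono {S S' : Set ℂ} (h : S ⊆ S') : LG S ≤ LG S' := by
  intro x hx
  rw [mem_LG] at hx ⊢
  exact IsAlgebraic.ringHom_of_comp_eq
    (IntermediateField.inclusion (IntermediateField.adjoin.mono ℚ S S' h)).toRingHom (RingHom.id ℂ) hx
    (RingHom.injective _) (by ext; rfl)

theorem card_odd {q : ℕ} [NeZero q] (hq : 2 < q) :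
    2 * (univ.filter fun χ : DirichletCharacter ℂ q => χ (-1) = -1).card = q.totient := by
  classical
  have h1 : (-1 : ZMod q) ≠ 1 := by
    have : Fact (2 < q) := ⟨hq⟩
    exact ZMod.neg_one_ne_one
  have h2 := DirichletCharacter.sum_characters_eq ℂ (-1 : ZMod q)
  rw [if_neg h1] at h2
  have h3 := DirichletCharacter.sum_characters_eq ℂ (1 : ZMod q)
  rw [if_pos rfl] at h3
  have h4 : ∑ χ : DirichletCharacter ℂ q, ((1 : ℂ) - χ (-1)) = q.totient := by
    rw [Finset.sum_sub_distrib, h2, sub_zero]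
    simpa using h3
  have h5 : ∑ χ : DirichletCharacter ℂ q, ((1 : ℂ) - χ (-1)) =
      ∑ χ ∈ univ.filter fun χ : DirichletCharacter ℂ q => χ (-1) = -1, (2 : ℂ) := by
    rw [Finset.sum_filter]
    refine sum_congr rfl fun χ _ => ?_
    rcases χ.even_or_odd with h | h
    · have h6 : χ (-1) = 1 := h
      rw [h6, if_neg (by norm_num)]
      ring
    · have h6 : χ (-1) = -1 := h
      rw [h6, if_pos rfl]
      ring
  rw [h5, Finset.sum_const, nsmul_eq_mul] at h4
  have h7 : ((2 * (univ.filter fun χ : DirichletCharacter ℂ q => χ (-1) = -1).card : ℕ) : ℂ) = q.totient := by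
    push_cast
    rw [mul_comm]
    exact h4
  exact_mod_cast h7

theorem card_good_add_bad {q : ℕ} [NeZero q] (hq : 2 < q) :
    (good q).card + (bad q).card = q.totient / 2 := by
  classical
  have h1 := card_odd hq
  have h2 : (univ.filter fun χ : DirichletCharacter ℂ q => χ (-1) = -1) = good q ∪ bad q := by
    ext χ
    rw [mem_filter, mem_union, mem_good, mem_bad]
    constructor
    · rintro ⟨-, h⟩
      have hodd : χ.Odd := h
      by_cases h3 : ∃ p : ℕ, p.Prime ∧ p ∣ q ∧ χ.primitiveCharacter p = 1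
      · exact Or.inr ⟨hodd, h3⟩
      · exact Or.inl ⟨hodd, fun p hp hpq h => h3 ⟨p, hp, hpq, h⟩⟩
    · rintro (h | h)
      · exact ⟨mem_univ _, h.1⟩
      · exact ⟨mem_univ _, h.1⟩
  have h3 : Disjoint (good q) (bad q) := by
    rw [disjoint_left]
    intro χ h4 h5
    obtain ⟨-, p, hp, hpq, h6⟩ := mem_bad.1 h5
    exact (mem_good.1 h4).2 p hp hpq h6
  rw [h2, card_union_of_disjoint h3] at h1
  omega

theorem adm_of_linear {q : ℕ} (hq : 2 < q) (g : (ℝ ⧸ LG {(Real.pi : ℂ)}) →ₗ[ℚ] ℚ) :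
    Adm q (fun u => ((g ((LG {(Real.pi : ℂ)}).mkQ (vv q u)) : ℚ) : ℂ)) := by
  have hpi : (Real.pi : ℂ) ∈ ({(Real.pi : ℂ)} : Set ℂ) := rfl
  refine ⟨fun u => ?_, ?_⟩
  · have h1 := vv_neg hpi hq u
    have h2 : (LG {(Real.pi : ℂ)}).mkQ (vv q u) + (LG {(Real.pi : ℂ)}).mkQ (vv q (-u)) = 0 := by
      rw [← map_add, Submodule.mkQ_apply, Submodule.Quotient.mk_eq_zero]
      exact h1
    have h3 := congrArg g h2
    rw [map_add, map_zero] at h3
    have h4 : g ((LG {(Real.pi : ℂ)}).mkQ (vv q (-u))) = - g ((LG {(Real.pi : ℂ)}).mkQ (vv q u)) := by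
      linarith
    simp only [h4]
    push_cast
    rfl
  · intro p e m hp hqe hm hmq c P hP _
    classical
    subst hqe
    have h1 := coset_mem (S := {(Real.pi : ℂ)}) hpi hp hm hmq c P hP (e := e)
    have h2 := (Submodule.Quotient.mk_eq_zero (LG {(Real.pi : ℂ)})).2 h1
    rw [← Submodule.mkQ_apply, map_sum] at h2
    have h3 := congrArg g h2
    rw [map_sum, map_zero] at h3
    have h4 := congrArg (fun t : ℚ => (t : ℂ)) h3
    simp only [Rat.cast_sum, Rat.cast_zero] at h4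
    convert h4

theorem general (q : ℕ) [NeZero q] (hq : 2 < q) :
    Algebra.trdeg ℚ (Fq q) ≤ ((1 + (good q).card : ℕ) : Cardinal) := by
  classical
  let L0 : Submodule ℚ ℝ := LG {(Real.pi : ℂ)}
  let v : (ZMod q)ˣ → (ℝ ⧸ L0) := fun u => L0.mkQ (vv q u)
  obtain ⟨κ, a, ha, hsp, hli⟩ := exists_linearIndependent' ℚ v
  have : Finite κ := Finite.of_injective a ha
  have : Fintype κ := Fintype.ofFinite κ
  -- dual functionals
  have hδ : ∀ k : κ, ∃ g : (ℝ ⧸ L0) →ₗ[ℚ] ℚ, ∀ k', g (v (a k')) = if k' = k then 1 else 0 := by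
    intro k
    obtain ⟨g, hg⟩ := LinearMap.exists_extend ((Finsupp.lapply k).comp hli.repr)
    refine ⟨g, fun k' => ?_⟩
    have h1 := LinearMap.congr_fun hg ⟨v (a k'), Submodule.subset_span ⟨k', rfl⟩⟩
    rw [LinearMap.comp_apply, Submodule.subtype_apply] at h1
    rw [h1, LinearMap.comp_apply]
    have h2 : hli.repr ⟨v (a k'), Submodule.subset_span ⟨k', rfl⟩⟩ = Finsupp.single k' 1 :=
      hli.repr_eq_single k' _ rfl
    rw [h2, Finsupp.lapply_apply, Finsupp.single_apply]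
  choose g hg using hδ
  let f : κ → ((ZMod q)ˣ → ℂ) := fun k u => ((g k (v u) : ℚ) : ℂ)
  have hf : ∀ k, Adm q (f k) := fun k => adm_of_linear hq (g k)
  have hfa : ∀ k k', f k (a k') = if k' = k then 1 else 0 := by
    intro k k'
    simp only [f, hg]
    split_ifs <;> simp
  have hfli : LinearIndependent ℂ f := by
    rw [Fintype.linearIndependent_iff]
    intro c hc k
    have h1 := congrFun hc (a k)
    simp only [Finset.sum_apply, Pi.smul_apply, smul_eq_mul, hfa, Pi.zero_apply] at h1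
    simpa using h1
  have hcard : Fintype.card κ ≤ (good q).card := by
    let w : Finset ((ZMod q)ˣ → ℂ) := (good q).image fun χ : DirichletCharacter ℂ q =>
      fun u : (ZMod q)ˣ => χ (u : ZMod q)
    have h1 : Set.range f ≤ (Submodule.span ℂ (w : Set ((ZMod q)ˣ → ℂ)) : Set ((ZMod q)ˣ → ℂ)) := by
      rintro _ ⟨k, rfl⟩
      have h2 := mem_span_good (hf k)
      have h3 : (w : Set ((ZMod q)ˣ → ℂ)) = (fun χ : DirichletCharacter ℂ q => fun u : (ZMod q)ˣ =>
          χ (u : ZMod q)) '' (good q : Set (DirichletCharacter ℂ q)) := coe_image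
      rw [h3]
      exact h2
    have h4 := linearIndependent_le_span_aux' f hfli (w : Set ((ZMod q)ˣ → ℂ)) h1
    have h5 : Fintype.card (w : Set ((ZMod q)ˣ → ℂ)) = w.card := Fintype.card_coe w
    rw [h5] at h4
    exact h4.trans card_image_le
  let S : Set ℂ := {(Real.pi : ℂ)} ∪ Set.range fun k => Complex.Gamma ((((a k : (ZMod q)ˣ) : ZMod q).val : ℂ) / (q : ℂ))
  have hpi : (Real.pi : ℂ) ∈ S := Or.inl rfl
  have hSc : #S ≤ ((1 + Fintype.card κ : ℕ) : Cardinal) := by
    have h1 : #S ≤ #({(Real.pi : ℂ)} : Set ℂ) +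
        #(Set.range fun k => Complex.Gamma ((((a k : (ZMod q)ˣ) : ZMod q).val : ℂ) / (q : ℂ))) :=
      Cardinal.mk_union_le _ _
    refine h1.trans ?_
    rw [Cardinal.mk_singleton]
    have h2 : #(Set.range fun k => Complex.Gamma ((((a k : (ZMod q)ˣ) : ZMod q).val : ℂ) / (q : ℂ))) ≤ #κ :=
      Cardinal.mk_range_le
    refine (add_le_add_right h2 1).trans ?_
    rw [Cardinal.mk_fintype]
    push_cast
    exact le_rfl
  have : Fact (1 < q) := ⟨by omega⟩
  have hval : ∀ u : (ZMod q)ˣ, 1 ≤ (u : ZMod q).val := fun u =>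
    Nat.one_le_iff_ne_zero.2 (by rw [Ne, ZMod.val_eq_zero]; exact u.ne_zero)
  have hspan : Submodule.span ℚ (Set.range (v ∘ a)) ≤ (LG S).map L0.mkQ := by
    rw [Submodule.span_le]
    rintro _ ⟨k, rfl⟩
    refine ⟨vv q (a k), ?_, rfl⟩
    have h1 : (0 : ℝ) < ((a k : (ZMod q)ˣ) : ZMod q).val := by exact_mod_cast hval (a k)
    have h2 : (0 : ℝ) < q := by exact_mod_cast (by omega : 0 < q)
    refine LG_of_mem (Real.Gamma_pos_of_pos (by positivity)) ?_
    rw [← gamma_eq]
    exact Or.inr ⟨k, rfl⟩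
  refine (trdeg_Fq_le q S ?_ hpi ?_).trans (hSc.trans ?_)
  · rintro x (hx | ⟨k, rfl⟩)
    · exact Or.inl hx
    · refine Or.inr ⟨((a k : (ZMod q)ˣ) : ZMod q).val, hval (a k), ?_, ?_, rfl⟩
      · have := ZMod.val_lt ((a k : (ZMod q)ˣ) : ZMod q)
        omega
      · exact ZMod.val_coe_unit_coprime (a k)
  · intro b h1 h2 h3
    let u : (ZMod q)ˣ := ZMod.unitOfCoprime b h3
    have h4 : (u : ZMod q).val = b := by
      rw [ZMod.coe_unitOfCoprime, ZMod.val_natCast, Nat.mod_eq_of_lt (by omega)]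
    have h5 : v u ∈ (LG S).map L0.mkQ := by
      refine hspan ?_
      rw [hsp]
      exact Submodule.subset_span ⟨u, rfl⟩
    obtain ⟨y, hy, hyu⟩ := h5
    have h6 : y - vv q u ∈ L0 := (Submodule.Quotient.eq L0).1 hyu
    have h7 : y - vv q u ∈ LG S := LG_mono (Set.subset_union_left) h6
    have h8 := Submodule.sub_mem _ hy h7
    rw [sub_sub_cancel] at h8
    unfold vv at h8
    rw [h4] at h8
    exact h8
  · exact_mod_cast Nat.add_le_add_left hcard 1

end Pool.Agent.TH17.LR
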