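import Mathlib
import Pool.Agent.TH17.LR.Final

/-! Existence of odd characters with `χ*(p) = 1`. -/

open Finset Cardinal

namespace Pool.Agent.TH17.LR

theorem exists_bad (p a m : ℕ) (hp : p.Prime) (ha : 1 ≤ a) (hpm : ¬ p ∣ m)
    (hneg : ∀ i : ℕ, (p : ZMod m) ^ i ≠ -1) [NeZero (p ^ a * m)] : 0 < (bad (p ^ a * m)).card := by
  classical
  have hm0 : m ≠ 0 := fun h => hpm (h ▸ dvd_zero p)
  have : NeZero m := ⟨hm0⟩
  have hcop : Nat.Coprime p m := (Nat.Prime.coprime_iff_not_dvd hp).2 hpm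
  obtain ⟨P, hP⟩ : ∃ P : (ZMod m)ˣ, (P : ZMod m) = p := ⟨_, ZMod.coe_unitOfCoprime p hcop⟩
  have hmq : m ∣ p ^ a * m := dvd_mul_left _ _
  have hx : (QuotientGroup.mk (-1 : (ZMod m)ˣ) : (ZMod m)ˣ ⧸ Subgroup.zpowers P) ≠ 1 := by
    intro h
    rw [QuotientGroup.eq_one_iff] at h
    obtain ⟨n, hn⟩ := (mem_powers_iff_mem_zpowers (x := P) (y := (-1 : (ZMod m)ˣ))).2 h
    refine hneg n ?_
    have := congrArg (fun u : (ZMod m)ˣ => (u : ZMod m)) hn
    simpa [hP] using this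
  have hex : Monoid.exponent ((ZMod m)ˣ ⧸ Subgroup.zpowers P) ≠ 0 := by
    refine (Monoid.exponent_ne_zero (G := (ZMod m)ˣ ⧸ Subgroup.zpowers P)).2 ?_
    refine ⟨Nat.card ((ZMod m)ˣ ⧸ Subgroup.zpowers P), Nat.card_pos, fun g => pow_card_eq_one'⟩
  have : NeZero (Monoid.exponent ((ZMod m)ˣ ⧸ Subgroup.zpowers P)) := ⟨hex⟩
  have : NeZero ((Monoid.exponent ((ZMod m)ˣ ⧸ Subgroup.zpowers P) : ℕ) : ℂ) := ⟨by exact_mod_cast hex⟩
  obtain ⟨φ, hφ⟩ := CommGroup.exists_apply_ne_one_of_hasEnoughRootsOfUnity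
    ((ZMod m)ˣ ⧸ Subgroup.zpowers P) ℂ hx
  let η : (ZMod m)ˣ →* ℂˣ := φ.comp (QuotientGroup.mk' (Subgroup.zpowers P))
  have hη1 : η P = 1 := by
    have : (QuotientGroup.mk' (Subgroup.zpowers P)) P = 1 :=
      (QuotientGroup.eq_one_iff P).2 (Subgroup.mem_zpowers P)
    show φ _ = 1
    rw [this, map_one]
  have hη2 : η (-1) = -1 := by
    have h1 : η (-1) ≠ 1 := hφ
    have h2 : η (-1) ^ 2 = 1 := by rw [← map_pow, neg_one_sq, map_one]
    have h3 : ((η (-1) : ℂˣ) : ℂ) ^ 2 = 1 := by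
      rw [← Units.val_pow_eq_pow_val, h2, Units.val_one]
    rcases sq_eq_one_iff.mp h3 with h4 | h4
    · exact absurd (Units.ext (by rw [h4, Units.val_one])) h1
    · exact Units.ext (by rw [h4, Units.val_neg, Units.val_one])
  let ψ : DirichletCharacter ℂ m := MulChar.ofUnitHom η
  let χ : DirichletCharacter ℂ (p ^ a * m) := DirichletCharacter.changeLevel hmq ψ
  have hψp : ψ (p : ZMod m) = 1 := by
    rw [← hP, MulChar.ofUnitHom_coe, hη1, Units.val_one]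
  have hodd : χ.Odd := by
    have h1 : χ ((-1 : (ZMod (p ^ a * m))ˣ) : ZMod (p ^ a * m)) = -1 := by
      rw [DirichletCharacter.changeLevel_eq_cast_of_dvd, ← ZMod.unitsMap_val hmq]
      have h2 : ZMod.unitsMap hmq (-1) = -1 := by
        apply Units.ext
        simp [ZMod.unitsMap_def]
      rw [h2, MulChar.ofUnitHom_coe, hη2]
      simp
    simpa [DirichletCharacter.Odd] using h1
  refine card_pos.2 ⟨χ, mem_bad.2 ⟨hodd, p, hp, ?_, ?_⟩⟩
  · exact dvd_mul_of_dvd_left (dvd_pow_self p (by omega)) m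
  · have h1 := DirichletCharacter.primitiveCharacter_changeLevel_apply hmq ψ (p : ℤ)
    have h2 := ψ.primitiveCharacter_apply_of_isCoprime (a := (p : ℤ)) (by
      rw [Nat.isCoprime_iff_coprime]; exact hcop)
    rw [h2] at h1
    push_cast at h1
    rw [hψp] at h1
    exact h1

end Pool.Agent.TH17.LR
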